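import Pool.Agent.H379.GS.Cat

/-!
# Q1 and Q2 of MP_b2fb47_al are equivalent over every field
-/

set_option autoImplicit false

namespace Pool.Agent.Results.MP_b2fb47_al.GendoSymmetricSuffice

open CategoryTheory CategoryTheory.Abelian W450.Rig Pool.Agent.H379.GS

universe u

/-- Let `K` be a field. For every finite-dimensional connected `K`-algebra `A` there is a
finite-dimensional, connected, non-semisimple gendo-symmetric `K`-algebra `E` with
`o_k(A) ≤ o_k(E)` for all `k`. Consequently some `o_k(A)`, `k ≥ 1`, is finite for all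
finite-dimensional, connected, non-semisimple `K`-algebras `A` if and only if this holds for the
gendo-symmetric ones. -/
theorem result (K : Type u) [Field K] :
    (∀ (A : Type u) [Ring A] [Algebra K A], Module.Finite K A → IsConnectedRing A →
      ∃ (E : Type u) (_ : Ring E) (_ : Algebra K E),
        Module.Finite K E ∧ IsConnectedRing E ∧ ¬ IsSemisimpleRing E ∧ IsGendoSymmetric K E ∧
        ∀ k : ℕ, oSize A k ≤ oSize E k) ∧
    ((∀ (A : Type u) [Ring A] [Algebra K A], Module.Finite K A → IsConnectedRing A →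
        ¬ IsSemisimpleRing A → ∃ k : ℕ, 1 ≤ k ∧ oSize A k < ⊤) ↔
      (∀ (A : Type u) [Ring A] [Algebra K A], Module.Finite K A → IsConnectedRing A →
        ¬ IsSemisimpleRing A → IsGendoSymmetric K A → ∃ k : ℕ, 1 ≤ k ∧ oSize A k < ⊤)) := by
  have h : ∀ (A : Type u) [Ring A] [Algebra K A], Module.Finite K A → IsConnectedRing A →
      ∃ (E : Type u) (_ : Ring E) (_ : Algebra K E),
        Module.Finite K E ∧ IsConnectedRing E ∧ ¬ IsSemisimpleRing E ∧ IsGendoSymmetric K E ∧
        ∀ k : ℕ, oSize A k ≤ oSize E k := by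
    intro A _ _ hfin hcon
    have hnt : Nontrivial A := hcon.1
    exact ⟨E K A, inferInstance, inferInstance, e_finite K A, e_connected hcon,
      e_not_semisimple, e_gendo K A, oSize_le K A⟩
  refine ⟨h, fun H A _ _ h1 h2 h3 _ => H A h1 h2 h3, fun H A _ _ h1 h2 _ => ?_⟩
  obtain ⟨E, _, _, e1, e2, e3, e4, e5⟩ := h A h1 h2
  obtain ⟨k, hk, hlt⟩ := H E e1 e2 e3 e4
  exact ⟨k, hk, lt_of_le_of_lt (e5 k) hlt⟩

end Pool.Agent.Results.MP_b2fb47_al.GendoSymmetricSuffice
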