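import Pool.Graph.R_seed8.W450.RigFam
import Pool.Graph.R_seed8.W450.RigGreen
import Pool.Graph.R_seed8.W450.RigNS
import Pool.Graph.R_seed8.W450.RigConn
import Pool.Graph.R_seed8.W495.Family
import Pool.Agent.H379.GS.Cat

/-!
# A gendo-symmetric algebra with `o_k(A) = ∞` for every `k`

Negative answer to Q2 of MP_b2fb47_al, over every field of characteristic zero.

For a finite-dimensional algebra `A` let `T = A ⋉ D A` be its trivial extension, a symmetric
algebra, and `E = End_T (T ⊕ A)`, a gendo-symmetric algebra. If `e` is the idempotent of `E`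
belonging to the summand `A`, then `e E e = A` and the left `A`-module `e E` is free of rank two.
Hence `X ↦ X ⊗_A e E` is an exact fully faithful functor from right `A`-modules to right
`E`-modules which preserves projective modules, and so all groups `Ext^i(X, Y)`. Applied to an
infinite family of indecomposable modules without extensions it gives the result.
-/

set_option autoImplicit false

namespace Pool.Agent.Results.MP_b2fb47_al.GendoSymmetricUnbounded

open CategoryTheory CategoryTheory.Abelian W450.Rig Pool.Agent.H379.GS

universe u

/-- Over every field `K` of characteristic zero there is a finite-dimensional, connected,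
non-semisimple gendo-symmetric `K`-algebra `A` with `o_k(A) = ∞` for every `k ≥ 1`; indeed `A` has
finitely generated right modules `M` with `Ext^i(M, M) = 0` for all `i ≥ 1` and with arbitrarily
many pairwise non-isomorphic indecomposable direct summands. -/
theorem result (K : Type u) [Field K] [CharZero K] :
    ∃ (A : Type u) (_ : Ring A) (_ : Algebra K A),
      Module.Finite K A ∧ IsConnectedRing A ∧ ¬ IsSemisimpleRing A ∧ IsGendoSymmetric K A ∧
      (∀ k : ℕ, 1 ≤ k → oSize A k = ⊤) ∧
      (∀ N : ℕ, ∃ M : ModuleCat.{u} Aᵐᵒᵖ, Module.Finite Aᵐᵒᵖ M ∧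
        (∀ i : ℕ, 1 ≤ i → Subsingleton (Ext M M i)) ∧ (N : ℕ∞) ≤ size M) := by
  have hX : IsOrthFamily (Xfam K) := orth_family K (fun m n => green_irr K m n)
  have hfin : Module.Finite K (Alg K) := alg_finite K
  have hnt : Nontrivial (Alg K) := (alg_connected K).1
  have hY : IsOrthFamily (fun n => (FF K (Alg K)).obj (Xfam K n)) :=
    { fin := fun n => ff_finite K (Alg K) _ (hX.fin n)
      indec := fun n => indec_of_full_faithful _ (hX.indec n)
      inj := fun m n ⟨e⟩ => hX.inj m n ⟨(FF K (Alg K)).preimageIso e⟩
      ext := fun m n i hi => ff_ext K (Alg K) _ _ i (hX.ext m n i hi) }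
  obtain ⟨h1, h2⟩ := unbounded_of_family (E K (Alg K)) _ hY
  exact ⟨E K (Alg K), inferInstance, inferInstance, e_finite K (Alg K),
    e_connected (alg_connected K), e_not_semisimple, e_gendo K (Alg K), fun k _ => h2 k, h1⟩

end Pool.Agent.Results.MP_b2fb47_al.GendoSymmetricUnbounded
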